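import Mathlib
import Pool.Agent.Run7.h807.Dirac
import Pool.Agent.Run7.h807.Wrap

set_option autoImplicit false

namespace Pool.Agent.Results.MP_60f890_co.DiracCase

/-- Both parts of Bondy's conjecture for every 3-connected graph `G` with `|V| = 2δ(G)`, `δ(G)` the
minimum degree (the extreme case of the hypothesis `δ(G) ≤ |V|/2`). -/
theorem result :
    ∀ (V : Type) [Fintype V] [DecidableEq V] (G : SimpleGraph V) [DecidableRel G.Adj],
      3 < Fintype.card V →
      (∀ S : Finset V, S.card ≤ 2 → (G.induce ((↑S : Set V)ᶜ)).Connected) →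
      Fintype.card V = 2 * G.minDegree →
      (∀ C : Finset (Sym2 V), (↑C : Set (Sym2 V)) ⊆ G.edgeSet →
          (∀ v : V, Even (C.filter (fun e => v ∈ e)).card) →
          ∃ F : Finset (Finset (Sym2 V)),
            (∀ D ∈ F, ∃ (u : V) (p : G.Walk u u),
              p.IsCycle ∧ p.edges.toFinset = D ∧ 2 * G.minDegree ≤ p.length + 1) ∧
            ∀ e : Sym2 V, e ∈ C ↔ Odd (F.filter (fun D => e ∈ D)).card) ∧
      (∀ (w : V) (q : G.Walk w w), q.IsCycle →
          ∃ F : Finset (Finset (Sym2 V)),
            (∀ D ∈ F, ∃ (u : V) (p : G.Walk u u),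
              p.IsCycle ∧ p.edges.toFinset = D ∧ 2 * G.minDegree ≤ p.length + 1) ∧
            Odd F.card ∧
            ∀ e : Sym2 V, e ∈ q.edges.toFinset ↔ Odd (F.filter (fun D => e ∈ D)).card) := by
  intro V _ _ G _ hcard hconn hn
  have hd : 3 ≤ G.minDegree := by
    by_contra hlt
    have h2 : G.minDegree = 2 := by omega
    have hne : Nonempty V := Fintype.card_pos_iff.1 (by omega)
    obtain ⟨v, hv⟩ := G.exists_minimal_degree_vertex
    have hS : (G.neighborFinset v).card = 2 := by
      rw [SimpleGraph.card_neighborFinset_eq_degree, ← hv, h2]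
    obtain ⟨w, hw⟩ : ∃ w, w ∉ insert v (G.neighborFinset v) := by
      by_contra hcon
      push Not at hcon
      have h5 := Finset.card_le_card (s := Finset.univ) (t := insert v (G.neighborFinset v))
        (fun z _ => hcon z)
      have h6 := Finset.card_insert_le v (G.neighborFinset v)
      rw [Finset.card_univ] at h5
      omega
    rw [Finset.mem_insert, not_or] at hw
    obtain ⟨a, b, -, hb, rfl, -, hab⟩ := Run7.h807.cut_edge hconn (S := G.neighborFinset v)
      hS.le (P := fun z => z = v) (x := v) (y := w) (by simp) hw.2 rfl hw.1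
    exact hb ((SimpleGraph.mem_neighborFinset _ _ _).2 hab)
  exact Run7.h807.frozen_of_good (Run7.h807.dirac_good hd hn
    (fun v => G.minDegree_le_degree v) hconn)

end Pool.Agent.Results.MP_60f890_co.DiracCase
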