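import Mathlib
import Pool.Agent.Run7.h807.Wt
import Pool.Agent.Run7.h807.Wrap

set_option autoImplicit false

namespace Pool.Agent.Results.MP_60f890_co.LargeDegree

/-- Both parts of Bondy's conjecture for every 3-connected graph with large minimum degree `δ` and
order `n ≥ 2δ` (with a smaller bound on `δ` for `n ≤ 4δ`). -/
theorem result :
    ∀ (V : Type) [Fintype V] [DecidableEq V] (G : SimpleGraph V) [DecidableRel G.Adj],
      (∀ S : Finset V, S.card < 3 → (G.induce ((↑S : Set V)ᶜ)).Connected) →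
      2 * G.minDegree ≤ Fintype.card V →
      27060 ≤ G.minDegree ∨ (1152 ≤ G.minDegree ∧ Fintype.card V ≤ 4 * G.minDegree) →
      (∀ C : Finset (Sym2 V), (↑C : Set (Sym2 V)) ⊆ G.edgeSet →
          (∀ v : V, Even (C.filter (fun e => v ∈ e)).card) →
          ∃ F : Finset (Finset (Sym2 V)),
            (∀ D ∈ F, ∃ (u : V) (p : G.Walk u u),
              p.IsCycle ∧ p.edges.toFinset = D ∧ 2 * G.minDegree ≤ p.length + 1) ∧
            ∀ e : Sym2 V, e ∈ C ↔ Odd (F.filter (fun D => e ∈ D)).card) ∧
      (∀ (w : V) (q : G.Walk w w), q.IsCycle →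
          ∃ F : Finset (Finset (Sym2 V)),
            (∀ D ∈ F, ∃ (u : V) (p : G.Walk u u),
              p.IsCycle ∧ p.edges.toFinset = D ∧ 2 * G.minDegree ≤ p.length + 1) ∧
            Odd F.card ∧
            ∀ e : Sym2 V, e ∈ q.edges.toFinset ↔ Odd (F.filter (fun D => e ∈ D)).card) := by
  intro V _ _ G _ hconn hn hd
  exact Run7.h807.frozen_of_good (Run7.h807.both_good (fun v => G.minDegree_le_degree v) hn hd hconn)

end Pool.Agent.Results.MP_60f890_co.LargeDegree
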