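import Mathlib
import Pool.Agent.Run7.h807.Fin
import Pool.Agent.Run7.h807.Wrap

set_option autoImplicit false

namespace Pool.Agent.Results.MP_60f890_co.TriangleFree

/-- Both parts of Bondy's conjecture for every 2-connected triangle-free graph `G` (Hamiltonian or
not) with `|V| ≤ 4δ(G) - 6`, `δ(G)` the minimum degree. -/
theorem result :
    ∀ (V : Type) [Fintype V] [DecidableEq V] (G : SimpleGraph V) [DecidableRel G.Adj],
      (∀ S : Finset V, S.card ≤ 1 → (G.induce ((↑S : Set V)ᶜ)).Connected) →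
      G.CliqueFree 3 →
      Fintype.card V + 6 ≤ 4 * G.minDegree →
      (∀ C : Finset (Sym2 V), (↑C : Set (Sym2 V)) ⊆ G.edgeSet →
          (∀ v : V, Even (C.filter (fun e => v ∈ e)).card) →
          ∃ F : Finset (Finset (Sym2 V)),
            (∀ D ∈ F, ∃ (u : V) (p : G.Walk u u),
              p.IsCycle ∧ p.edges.toFinset = D ∧ 2 * G.minDegree ≤ p.length + 1) ∧
            ∀ e : Sym2 V, e ∈ C ↔ Odd (F.filter (fun D => e ∈ D)).card) ∧
      (∀ (w : V) (q : G.Walk w w), q.IsCycle →
          ∃ F : Finset (Finset (Sym2 V)),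
            (∀ D ∈ F, ∃ (u : V) (p : G.Walk u u),
              p.IsCycle ∧ p.edges.toFinset = D ∧ 2 * G.minDegree ≤ p.length + 1) ∧
            Odd F.card ∧
            ∀ e : Sym2 V, e ∈ q.edges.toFinset ↔ Odd (F.filter (fun D => e ∈ D)).card) := by
  intro V _ _ G _ hconn htf hupp
  have hne : Nonempty V := by
    by_contra hcon
    rw [not_nonempty_iff] at hcon
    rw [SimpleGraph.minDegree_of_isEmpty] at hupp
    omega
  refine Run7.h807.frozen_of_good (Run7.h807.tf_final (Run7.h807.two_of_conn hconn) ?_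
    (fun v => G.minDegree_le_degree v) hupp)
  intro a b c hab hbc hac
  exact htf {a, b, c} (SimpleGraph.is3Clique_triple_iff.2 ⟨hab, hac, hbc⟩)

end Pool.Agent.Results.MP_60f890_co.TriangleFree
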